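import Pool.Agent.W798.SP.Basic

/-!
# SPX-J

The incidence inequality for arbitrary pairs of forms, by attaching fresh copies.
-/

set_option autoImplicit false

open Finset
open scoped Classical

namespace Pool.Agent.W496.SP.J

open Pool.Agent.W904.AK Pool.Agent.W798.SP

theorem tJ (h : S_J0) : S_J := by
  intro Ω₀ Γ _ p₀ Lam₀ u n htri i j Ω γ _ p Lam f g Q hp hf hg
  obtain ⟨hp₀, c, S, hS, hrel⟩ := htri
  set F₁ : Ω → Γ × ℝ := fun ω => (Lam ω, f ω) with hF₁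
  set G₁ : Ω₀ → Γ × ℝ := fun ω => (Lam₀ ω, u i ω) with hG₁
  set G₂ : Ω₀ → Γ × ℝ := fun ω => (Lam₀ ω, u j ω) with hG₂
  set pA : Ω × Ω₀ → ℝ := glue p p₀ F₁ G₁ with hpA
  set F₂ : Ω × Ω₀ → Γ × ℝ := fun w => (Lam w.1, g w.1) with hF₂
  set pB : (Ω × Ω₀) × Ω₀ → ℝ := glue pA p₀ F₂ G₂ with hpB
  have hA : IsLaw pA := glue_law hp hp₀ hf
  have hfg₂ : ∀ c, im pA F₂ c = im p₀ G₂ c := by
    intro c
    rw [← hg c]
    exact im_glue_fst hp hf (fun ω => (Lam ω, g ω)) c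
  have hB : IsLaw pB := glue_law hA hp₀ hfg₂
  -- facts on the support
  have supp : ∀ w, pB w ≠ 0 → Lam w.1.1 = Lam₀ w.1.2 ∧ f w.1.1 = u i w.1.2 ∧
      Lam w.1.1 = Lam₀ w.2 ∧ g w.1.1 = u j w.2 ∧ p₀ w.1.2 ≠ 0 ∧ p₀ w.2 ≠ 0 := by
    intro w hw
    obtain ⟨e1, e2, e3⟩ := glue_supp hw
    obtain ⟨e4, e5, e6⟩ := glue_supp e2
    exact ⟨congrArg Prod.fst e4, congrArg Prod.snd e4, congrArg Prod.fst e1,
      congrArg Prod.snd e1, e6, e3⟩
  let Q' : (Ω × Ω₀) × Ω₀ → γ × Γ := fun w => (Q w.1.1, Lam w.1.1)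
  let a : Fin 3 → (Ω × Ω₀) × Ω₀ → ℝ := fun k w => c (i + k) (Lam w.1.1) * u (i + k) w.1.2
  let b : Fin 3 → (Ω × Ω₀) × Ω₀ → ℝ := fun k w => c (j + k) (Lam w.1.1) * u (j + k) w.2
  have hsum : ∀ (m : Fin 3) (F : Fin 3 → ℝ), ∑ k, F (m + k) = ∑ k, F k := by
    intro m F
    exact Equiv.sum_comp (Equiv.addLeft m) F
  have hJ0 := h pB Q' a b n (fun k q => (S (i + k) q.2).image (fun x => c (i + k) q.2 * x))
    (fun k q => (S (j + k) q.2).image (fun x => c (j + k) q.2 * x)) hB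
    (fun k q => Finset.card_image_le.trans (hS _ _))
    (fun k q => Finset.card_image_le.trans (hS _ _)) (by
      intro w hw
      obtain ⟨s1, s2, s3, s4, s5, s6⟩ := supp w hw
      obtain ⟨r1, r2⟩ := hrel _ s5
      obtain ⟨r3, r4⟩ := hrel _ s6
      refine ⟨fun k => ⟨?_, ?_, ?_, ?_⟩, ?_, ?_⟩
      · change c (i + k) (Lam w.1.1) * u (i + k) w.1.2 ≠ 0
        rw [s1]
        exact mul_ne_zero (r1 _).1 (r1 _).2.1
      · change c (j + k) (Lam w.1.1) * u (j + k) w.2 ≠ 0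
        rw [s3]
        exact mul_ne_zero (r3 _).1 (r3 _).2.1
      · refine Finset.mem_image.2 ⟨u (i + k) w.1.2, ?_, rfl⟩
        change u (i + k) w.1.2 ∈ S (i + k) (Lam w.1.1)
        rw [s1]
        exact (r1 _).2.2
      · refine Finset.mem_image.2 ⟨u (j + k) w.2, ?_, rfl⟩
        change u (j + k) w.2 ∈ S (j + k) (Lam w.1.1)
        rw [s3]
        exact (r3 _).2.2
      · change ∑ k, c (i + k) (Lam w.1.1) * u (i + k) w.1.2 = 0
        rw [hsum i (fun k => c k (Lam w.1.1) * u k w.1.2), s1]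
        exact r2
      · change ∑ k, c (j + k) (Lam w.1.1) * u (j + k) w.2 = 0
        rw [hsum j (fun k => c k (Lam w.1.1) * u k w.2), s3]
        exact r4)
  -- the ratio
  have hratio : CH pB Q' (fun w => b 0 w / a 0 w) ≤
      CH p (fun ω => (Q ω, Lam ω)) (fun ω => g ω / f ω) := by
    have e1 : CH pB Q' (fun w => b 0 w / a 0 w) ≤ CH pB Q' (fun w => g w.1.1 / f w.1.1) := by
      apply CH_mono hB
      refine Det.mk' (fun t => c j t.1.2 / c i t.1.2 * t.2) fun w hw => ?_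
      obtain ⟨s1, s2, s3, s4, s5, s6⟩ := supp w hw
      change c (j + 0) (Lam w.1.1) * u (j + 0) w.2 / (c (i + 0) (Lam w.1.1) * u (i + 0) w.1.2)
        = c j (Lam w.1.1) / c i (Lam w.1.1) * (g w.1.1 / f w.1.1)
      rw [add_zero, add_zero, s4, s2, mul_div_mul_comm]
    have e2 : CH pB Q' (fun w => g w.1.1 / f w.1.1) =
        CH p (fun ω => (Q ω, Lam ω)) (fun ω => g ω / f ω) := by
      unfold CH
      have e3 : H pB (fun w => (Q' w, g w.1.1 / f w.1.1)) =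
          H p (fun ω => ((Q ω, Lam ω), g ω / f ω)) := by
        have e5 := H_glue_fst (q := p₀) (g := G₂) hA hfg₂
          (fun w : Ω × Ω₀ => ((Q w.1, Lam w.1), g w.1 / f w.1))
        have e6 := H_glue_fst (q := p₀) (g := G₁) hp hf
          (fun ω : Ω => ((Q ω, Lam ω), g ω / f ω))
        exact e5.trans e6
      have e4 : H pB Q' = H p (fun ω => (Q ω, Lam ω)) := by
        have e5 := H_glue_fst (q := p₀) (g := G₂) hA hfg₂
          (fun w : Ω × Ω₀ => (Q w.1, Lam w.1))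
        have e6 := H_glue_fst (q := p₀) (g := G₁) hp hf (fun ω : Ω => (Q ω, Lam ω))
        exact e5.trans e6
      rw [e3, e4]
    rw [← e2]
    exact e1
  -- the joint entropy
  have hjoint : CH pB Q' (fun w => (zz a w, zz b w)) =
      CH p (fun ω => (Q ω, Lam ω)) (fun ω => (f ω, g ω)) + 2 * CH p₀ Lam₀ (zz u) -
        (CH p₀ Lam₀ (u i) + CH p₀ Lam₀ (u j)) := by
    unfold CH
    have e4 : H pB Q' = H p (fun ω => (Q ω, Lam ω)) := by
      have e5 := H_glue_fst (q := p₀) (g := G₂) hA hfg₂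
        (fun w : Ω × Ω₀ => (Q w.1, Lam w.1))
      have e6 := H_glue_fst (q := p₀) (g := G₁) hp hf (fun ω : Ω => (Q ω, Lam ω))
      exact e5.trans e6
    let big : (Ω × Ω₀) × Ω₀ → (((γ × Γ) × (ℝ × ℝ)) × (Γ × (Fin 3 → ℝ))) × (Γ × (Fin 3 → ℝ)) :=
      fun w => ((((Q w.1.1, Lam w.1.1), (f w.1.1, g w.1.1)), (Lam₀ w.1.2, zz u w.1.2)),
        (Lam₀ w.2, zz u w.2))
    have e7 : H pB (fun w => (Q' w, (zz a w, zz b w))) = H pB big := by
      apply H_congr hB
      · refine Det.mk' (fun t => (((t.1, (t.2.1 0 / c i t.1.2, t.2.2 0 / c j t.1.2)),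
          (t.1.2, fun k => t.2.1 (k - i) / c k t.1.2)),
          (t.1.2, fun k => t.2.2 (k - j) / c k t.1.2))) fun w hw => ?_
        obtain ⟨s1, s2, s3, s4, s5, s6⟩ := supp w hw
        obtain ⟨r1, r2⟩ := hrel _ s5
        obtain ⟨r3, r4⟩ := hrel _ s6
        have ha : ∀ k, a k w = c (i + k) (Lam w.1.1) * u (i + k) w.1.2 := fun k => rfl
        have hb : ∀ k, b k w = c (j + k) (Lam w.1.1) * u (j + k) w.2 := fun k => rfl
        have hc1 : ∀ k, c k (Lam w.1.1) ≠ 0 := fun k => by rw [s1]; exact (r1 k).1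
        have q1 : ∀ k, a (k - i) w / c k (Lam w.1.1) = u k w.1.2 := by
          intro k
          rw [ha, add_sub_cancel, mul_div_cancel_left₀ _ (hc1 k)]
        have q2 : ∀ k, b (k - j) w / c k (Lam w.1.1) = u k w.2 := by
          intro k
          rw [hb, add_sub_cancel, mul_div_cancel_left₀ _ (hc1 k)]
        have q3 : a 0 w / c i (Lam w.1.1) = f w.1.1 := by
          rw [ha, add_zero, mul_div_cancel_left₀ _ (hc1 i), s2]
        have q4 : b 0 w / c j (Lam w.1.1) = g w.1.1 := by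
          rw [hb, add_zero, mul_div_cancel_left₀ _ (hc1 j), s4]
        change ((((Q w.1.1, Lam w.1.1), (f w.1.1, g w.1.1)), (Lam₀ w.1.2, zz u w.1.2)),
          (Lam₀ w.2, zz u w.2)) = ((((Q w.1.1, Lam w.1.1),
          (a 0 w / c i (Lam w.1.1), b 0 w / c j (Lam w.1.1))),
          (Lam w.1.1, fun k => a (k - i) w / c k (Lam w.1.1))),
          (Lam w.1.1, fun k => b (k - j) w / c k (Lam w.1.1)))
        rw [q3, q4]
        have q5 : (fun k => a (k - i) w / c k (Lam w.1.1)) = zz u w.1.2 := by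
          funext k
          exact q1 k
        have q6 : (fun k => b (k - j) w / c k (Lam w.1.1)) = zz u w.2 := by
          funext k
          exact q2 k
        rw [q5, q6, ← s3, ← s1]
      · exact Det.mk' (fun t => (t.1.1.1, ((fun k => c (i + k) t.1.1.1.2 * t.1.2.2 (i + k)),
          (fun k => c (j + k) t.1.1.1.2 * t.2.2 (j + k))))) fun w _ => rfl
    have e8 : H pB big = H pA (fun w => (((Q w.1, Lam w.1), (f w.1, g w.1)),
        (Lam₀ w.2, zz u w.2))) + H p₀ (fun ω => (Lam₀ ω, zz u ω)) - H pA F₂ := by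
      refine H_glue hA hp₀ hfg₂ (u := fun w : Ω × Ω₀ => (((Q w.1, Lam w.1), (f w.1, g w.1)),
        (Lam₀ w.2, zz u w.2))) (v := fun ω => (Lam₀ ω, zz u ω)) ?_ ?_
      · exact Det.mk' (fun t => (t.1.1.2, t.1.2.2)) fun w _ => rfl
      · exact Det.mk' (fun t => (t.1, t.2 j)) fun w _ => rfl
    have e9 : H pA (fun w => (((Q w.1, Lam w.1), (f w.1, g w.1)), (Lam₀ w.2, zz u w.2))) =
        H p (fun ω => ((Q ω, Lam ω), (f ω, g ω))) + H p₀ (fun ω => (Lam₀ ω, zz u ω)) - H p F₁ := by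
      refine H_glue hp hp₀ hf (u := fun ω => ((Q ω, Lam ω), (f ω, g ω)))
        (v := fun ω => (Lam₀ ω, zz u ω)) ?_ ?_
      · exact Det.mk' (fun t => (t.1.2, t.2.1)) fun w _ => rfl
      · exact Det.mk' (fun t => (t.1, t.2 i)) fun w _ => rfl
    have e10 : H pA F₂ = H p₀ G₂ := H_eq_of_im_eq hfg₂
    have e11 : H p F₁ = H p₀ G₁ := H_eq_of_im_eq hf
    rw [e4, e7, e8, e9, e10, e11]
    simp only [hG₁, hG₂]
    ring
  rw [hjoint] at hJ0
  linarith

end Pool.Agent.W496.SP.J
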